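import Pool.Agent.Q165.OddWeight

set_option autoImplicit false

/-!
# Latin squares without odd-weights have an odd-block pattern

If a latin square of order `n` has no `k`-weight for any odd `k`, then it has the odd-block pattern
of the Cayley table of `ZMod (2 m)` for some `m ≥ 1`.
-/

namespace Pool.Agent.Results.MP_b7f7f4_co.OddBlockPattern

open Finset

/-- `L` is a latin square: every row and every column is a bijection. -/
def IsLatin {n : ℕ} (L : Fin n → Fin n → Fin n) : Prop :=
  (∀ i, Function.Bijective (L i)) ∧ ∀ j, Function.Bijective (fun i => L i j)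

/-- `θ` (an integer for each cell) is a `k`-weight of `L`: it sums to `k` over the cells of every
row, of every column and of every symbol. -/
def IsWeight {n : ℕ} (L : Fin n → Fin n → Fin n) (k : ℤ) (θ : Fin n → Fin n → ℤ) : Prop :=
  (∀ i, ∑ j, θ i j = k) ∧ (∀ j, ∑ i, θ i j = k) ∧
    ∀ s, ∑ i, ∑ j, (if L i j = s then θ i j else 0) = k

/-- The set of symbols in the block of `L` formed by the rows of class `a` (for the row
classification `ρ`) and the columns of class `b` (for the column classification `κ`). -/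
def blockSymbols {n N : ℕ} (L : Fin n → Fin n → Fin n) (ρ κ : Fin n → ZMod N) (a b : ZMod N) :
    Set (Fin n) :=
  {s | ∃ i j, ρ i = a ∧ κ j = b ∧ L i j = s}

/-- `L` has the odd-block pattern of `ZMod (2 m)`: for some odd `q` the rows and the columns split
into classes of size `q` indexed by `ZMod (2 m)` such that every `q × q` block contains exactly `q`
symbols (so that it is a latin square) and two blocks `(a, b)`, `(a', b')` use the same set of
symbols exactly when `a + b = a' + b'`. -/
def HasOddBlockPattern {n : ℕ} (L : Fin n → Fin n → Fin n) (m : ℕ) : Prop :=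
  ∃ q : ℕ, Odd q ∧ ∃ ρ κ : Fin n → ZMod (2 * m),
    (∀ a, {i | ρ i = a}.ncard = q) ∧ (∀ b, {j | κ j = b}.ncard = q) ∧
    (∀ a b, (blockSymbols L ρ κ a b).ncard = q) ∧
    ∀ a b a' b', blockSymbols L ρ κ a b = blockSymbols L ρ κ a' b' ↔ a + b = a' + b'

/-- From compatible labels in `ZMod N` with all classes of size `q > 0` one gets the pattern. -/
theorem pattern_of_labels {n m q : ℕ} (L : Fin n → Fin n → Fin n) (hL : IsLatin L)
    (hq : 0 < q) (hodd : Odd q) (ρ κ σ : Fin n → ZMod (2 * m))
    (h : ∀ i j, σ (L i j) = ρ i + κ j)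
    (hρ : ∀ a, (univ.filter (fun i => ρ i = a)).card = q)
    (hκ : ∀ a, (univ.filter (fun i => κ i = a)).card = q)
    (hσ : ∀ a, (univ.filter (fun i => σ i = a)).card = q) :
    HasOddBlockPattern L m := by
  have hset : ∀ a b, blockSymbols L ρ κ a b = {s | σ s = a + b} := by
    intro a b
    ext s
    constructor
    · rintro ⟨i, j, rfl, rfl, rfl⟩
      exact h i j
    · intro hs
      have hne : (univ.filter (fun i => ρ i = a)).Nonempty := by
        rw [← Finset.card_pos, hρ]; exact hq
      obtain ⟨i, hi⟩ := hne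
      rw [mem_filter] at hi
      obtain ⟨j, hj⟩ := (hL.1 i).2 s
      refine ⟨i, j, hi.2, ?_, hj⟩
      have h1 := h i j
      rw [hj, hi.2] at h1
      have h2 : σ s = a + b := hs
      rw [h2] at h1
      exact (add_left_cancel h1).symm
  have hcard : ∀ (τ : Fin n → ZMod (2 * m)), (∀ a, (univ.filter (fun i => τ i = a)).card = q) →
      ∀ a, {i | τ i = a}.ncard = q := by
    intro τ hτ a
    rw [← hτ a, ← Set.ncard_coe_finset]
    congr 1
    ext i
    simp
  refine ⟨q, hodd, ρ, κ, hcard ρ hρ, hcard κ hκ, ?_, ?_⟩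
  · intro a b
    rw [hset]
    exact hcard σ hσ _
  · intro a b a' b'
    rw [hset, hset]
    constructor
    · intro heq
      have hne : (univ.filter (fun i => σ i = a + b)).Nonempty := by
        rw [← Finset.card_pos, hσ]; exact hq
      obtain ⟨s, hs⟩ := hne
      rw [mem_filter] at hs
      have h1 : s ∈ {s | σ s = a + b} := hs.2
      rw [heq] at h1
      have h2 : σ s = a' + b' := h1
      rw [← hs.2, h2]
    · intro heq
      rw [heq]

/-- **Theorem.** A latin square with no `k`-weight for any odd `k` has the odd-block pattern of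
`ZMod (2 m)` for some `m ≥ 1`. -/
theorem result (n : ℕ) (L : Fin n → Fin n → Fin n) (hL : IsLatin L)
    (hno : ∀ k : ℤ, Odd k → ¬ ∃ θ : Fin n → Fin n → ℤ, IsWeight L k θ) :
    ∃ m : ℕ, 1 ≤ m ∧ HasOddBlockPattern L m := by
  classical
  -- `n > 0`
  have hn : 0 < n := by
    rcases Nat.eq_zero_or_pos n with h0 | h0
    · subst h0
      exact absurd ⟨fun _ _ => 0, fun i => i.elim0, fun i => i.elim0, fun i => i.elim0⟩
        (hno 1 odd_one)
    · exact h0
  obtain ⟨f, g, t, hcell, hone⟩ := Q165.OddWeight.exists_labels L (by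
    rintro ⟨θ, hθ⟩
    apply hno 1 odd_one
    refine ⟨θ, ?_, ?_, ?_⟩
    · intro i
      exact congrFun (congrArg Prod.fst hθ) i
    · intro j
      exact congrFun (congrArg (fun p : Q165.OddWeight.Sums n => p.2.1) hθ) j
    · intro s
      exact congrFun (congrArg (fun p : Q165.OddWeight.Sums n => p.2.2) hθ) s)
  -- normalisation
  let r0 : Fin n := ⟨0, hn⟩
  let F : Fin n → AddCircle (1 : ℚ) := fun i => f i - f r0
  let G : Fin n → AddCircle (1 : ℚ) := fun j => g j - g r0
  let T : Fin n → AddCircle (1 : ℚ) := fun s => -t s - f r0 - g r0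
  have hT : ∀ i j, T (L i j) = F i + G j := by
    intro i j
    have h1 : t (L i j) = -(f i) - g j := by
      have := hcell i j
      rw [← sub_eq_zero]
      rw [← this]
      abel
    show -t (L i j) - f r0 - g r0 = (f i - f r0) + (g j - g r0)
    rw [h1]
    abel
  have hsum : (∑ i, F i) + (∑ j, G j) - (∑ s, T s) ≠ 0 := by
    have e : (∑ i, F i) + (∑ j, G j) - (∑ s, T s) = (∑ i, f i) + (∑ j, g j) + (∑ s, t s) := by
      simp only [F, G, T, Finset.sum_sub_distrib, Finset.sum_neg_distrib]
      abel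
    rw [e]
    exact hone
  obtain ⟨P, hPfin, hFP, hGP, hTP, q, hq0, hq⟩ :=
    Q165.OddWeight.core L hL.1 hL.2 F G T hT r0 r0 (sub_self _) (sub_self _)
  have hcyc := Q165.QZ.isAddCyclic P
  obtain ⟨N, hN⟩ : ∃ N, N = Nat.card P := ⟨_, rfl⟩
  have hNpos : 0 < N := by
    rw [hN]; exact Nat.card_pos
  have hNz : NeZero N := ⟨hNpos.ne'⟩
  let e : P ≃+ ZMod N := (zmodAddCyclicAddEquiv hcyc).symm.trans
    (hN ▸ AddEquiv.refl (ZMod (Nat.card P)))
  let ρ : Fin n → ZMod N := fun i => e ⟨F i, hFP i⟩
  let κ : Fin n → ZMod N := fun i => e ⟨G i, hGP i⟩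
  let σ : Fin n → ZMod N := fun i => e ⟨T i, hTP i⟩
  have hlab : ∀ i j, σ (L i j) = ρ i + κ j := by
    intro i j
    show e ⟨T (L i j), hTP (L i j)⟩ = e ⟨F i, hFP i⟩ + e ⟨G j, hGP j⟩
    rw [← map_add]
    congr 1
    exact Subtype.ext (hT i j)
  have hclass : ∀ (E : Fin n → AddCircle (1 : ℚ)) (hE : ∀ i, E i ∈ P),
      (∀ x ∈ P, Q165.OddWeight.cnt E x = q) →
      ∀ a : ZMod N, (univ.filter (fun i => e ⟨E i, hE i⟩ = a)).card = q := by
    intro E hE hcnt a
    rw [← hcnt (e.symm a) (e.symm a).2]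
    unfold Q165.OddWeight.cnt
    congr 1
    apply Finset.filter_congr
    intro i _
    rw [← e.eq_symm_apply, Subtype.ext_iff]
  have hρ := hclass F hFP (fun x hx => (hq x hx).1)
  have hκ := hclass G hGP (fun x hx => (hq x hx).2.1)
  have hσ := hclass T hTP (fun x hx => (hq x hx).2.2)
  have hne : q • ∑ a : ZMod N, a ≠ 0 := by
    intro h0
    apply hsum
    have s1 := Q165.OddWeight.sum_label ρ q hρ
    have s2 := Q165.OddWeight.sum_label κ q hκ
    have s3 := Q165.OddWeight.sum_label σ q hσ
    rw [h0] at s1 s2 s3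
    have tr : ∀ (E : Fin n → AddCircle (1 : ℚ)) (hE : ∀ i, E i ∈ P),
        ∑ i, e ⟨E i, hE i⟩ = 0 → ∑ i, E i = 0 := by
      intro E hE h1
      rw [← map_sum] at h1
      have h2 : (∑ i, (⟨E i, hE i⟩ : P)) = 0 := by
        rw [← e.map_eq_zero_iff]; exact h1
      have h3 := congrArg (fun p : P => (p : AddCircle (1 : ℚ))) h2
      simpa using h3
    rw [tr F hFP s1, tr G hGP s2, tr T hTP s3]
    simp
  obtain ⟨hNe, hqo⟩ := Q165.OddWeight.parity hne
  obtain ⟨m, hm⟩ := hNe
  rw [← two_mul] at hm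
  subst hm
  refine ⟨m, by omega, ?_⟩
  exact pattern_of_labels L hL hq0 hqo ρ κ σ hlab hρ hκ hσ

end Pool.Agent.Results.MP_b7f7f4_co.OddBlockPattern
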